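import Pool.Agent.L7h43.QU.Alg
import Pool.Agent.L7h43.QU.Linb
import Pool.Agent.L7h79.QU.Tube
import Pool.Agent.L7h73.QU.Edge
import Pool.Agent.L7h73.QU.Lead
import Pool.Agent.L7h73.QU.Min
import Pool.Agent.L7h73.QU.Refl
import Pool.Agent.L7h47.QU.Asm
import Pool.Agent.L7h69.QU.Star
import Pool.Agent.L7h6.QU.Inj
import Pool.Agent.L7h91.QU.Lina
import Pool.Agent.L7h96.QU.Dec
import Pool.Agent.L7h65.QU.Cev
import Pool.Agent.L7h64.NQ.Theta

/-! The assembly statement of the project QU (see `L7h43.QU.Fin`). -/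

set_option autoImplicit false

namespace Pool.Agent.L7h13.QU

open Pool.Agent.L7h43.QU

theorem asm5 : S_ASM := L7h47.QU.s_ASM L7h96.QU.s_DEC
  (L7h73.QU.s_LEAD (L7h69.QU.s_STAR L7h91.QU.s_LINA s_LINB s_ALG) L7h6.QU.s_INJ
    (L7h73.QU.s_EDGE L7h73.QU.s_REFL) L7h64.NQ.s_THETA L7h73.QU.s_MIN) L7h65.QU.s_CEV

end Pool.Agent.L7h13.QU
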