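import Pool.Agent.L7h13.QU.Two5
import Pool.Agent.L7h13.QU.Asm
import Pool.Agent.L7h13.NQ.Q4
import Pool.Agent.L7h13.NQ.Fin
import Pool.Agent.TH183.QS.Fin

/-!
# Collisions of seventeen to thirty-five points: the windows
-/

set_option autoImplicit false

namespace Pool.Agent.L7h13.QU

open Pool.Agent.H932R2 Pool.Agent.H932R3 Pool.Agent.TH545.CF
open Pool.Agent.L7h13.NQ

universe u

/-- one polynomial for all degrees -/
theorem merge {n m : ℕ} {k : Type u} [Field k] (P : ℕ → Prop) (D : ℕ)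
    (h1 : ∃ F : MvPolynomial (Fin (n + 1)) k, F ≠ 0 ∧
      ∀ (c : k) (a : Fin n → k), MvPolynomial.eval (Fin.cons c a : Fin (n + 1) → k) F ≠ 0 →
        ∀ d ≥ D, JetDim n m c a d)
    (h2 : ∀ d : ℕ, P d → ∃ F : MvPolynomial (Fin (n + 1)) k, F ≠ 0 ∧
      ∀ (c : k) (a : Fin n → k), MvPolynomial.eval (Fin.cons c a : Fin (n + 1) → k) F ≠ 0 →
        JetDim n m c a d) :
    ∃ F : MvPolynomial (Fin (n + 1)) k, F ≠ 0 ∧
      ∀ (c : k) (a : Fin n → k), MvPolynomial.eval (Fin.cons c a : Fin (n + 1) → k) F ≠ 0 →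
        ∀ d : ℕ, P d → JetDim n m c a d := by
  classical
  obtain ⟨F1, hF1, hF1'⟩ := h1
  have h3 : ∀ d : ℕ, ∃ F : MvPolynomial (Fin (n + 1)) k, F ≠ 0 ∧
      ∀ (c : k) (a : Fin n → k), MvPolynomial.eval (Fin.cons c a : Fin (n + 1) → k) F ≠ 0 →
        P d → JetDim n m c a d := by
    intro d
    by_cases hd : P d
    · obtain ⟨F, hF, hF'⟩ := h2 d hd
      exact ⟨F, hF, fun c a hc _ => hF' c a hc⟩
    · exact ⟨1, one_ne_zero, fun _ _ _ h => absurd h hd⟩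
  choose F3 hF3 hF3' using h3
  refine ⟨F1 * ∏ d ∈ Finset.range D, F3 d, mul_ne_zero hF1
    (Finset.prod_ne_zero_iff.2 fun d _ => hF3 d), fun c a hc d hd => ?_⟩
  rw [map_mul, map_prod] at hc
  by_cases hdD : D ≤ d
  · exact hF1' c a (left_ne_zero_of_mul hc) d hdD
  · exact hF3' d c a (Finset.prod_ne_zero_iff.1 (right_ne_zero_of_mul hc) d
      (Finset.mem_range.2 (by omega))) hd

/-- all large degrees -/
theorem large {r : ℕ} (hr : 10 ≤ r) (m : ℕ) (k : Type u) [Field k] [CharZero k] :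
    ∃ D : ℕ, ∃ F : MvPolynomial (Fin (r + 1)) k, F ≠ 0 ∧
      ∀ (c : k) (a : Fin r → k), MvPolynomial.eval (Fin.cons c a : Fin (r + 1) → k) F ≠ 0 →
        ∀ d ≥ D, JetDim r m c a d := by
  obtain ⟨D, hD⟩ := exists_nat_gt (√(r : ℝ) * (m + 1))
  obtain ⟨F, hF, hF'⟩ := Pool.Agent.TH183.QS.coll_every hr m k
  refine ⟨D, F, hF, fun c a hc d hd => hF' c a hc d (Or.inr (Or.inl ?_))⟩
  have : (D : ℝ) ≤ d := by exact_mod_cast hd
  linarith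

/-- the degree zero -/
theorem zero_deg {r : ℕ} (hr : 10 ≤ r) (m : ℕ) (k : Type u) [Field k] [CharZero k] :
    ∃ F : MvPolynomial (Fin (r + 1)) k, F ≠ 0 ∧
      ∀ (c : k) (a : Fin r → k), MvPolynomial.eval (Fin.cons c a : Fin (r + 1) → k) F ≠ 0 →
        JetDim r m c a 0 := by
  rcases Nat.eq_zero_or_pos m with hm | hm
  · obtain ⟨F, hF, hF'⟩ := Pool.Agent.TH183.QS.coll_triv (r := r) hm k
    exact ⟨F, hF, fun c a hc => hF' c a hc 0⟩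
  · obtain ⟨F, hF, hF'⟩ := Pool.Agent.TH183.QS.coll_every hr m k
    refine ⟨F, hF, fun c a hc => hF' c a hc 0 (Or.inl ?_)⟩
    have h1 : (0 : ℝ) < m := by exact_mod_cast hm
    have h2 : (0 : ℝ) < r := by
      have : 0 < r := by omega
      exact_mod_cast this
    push_cast
    exact mul_pos (Real.sqrt_pos.2 h2) h1

theorem not_sq_17 {r : ℕ} (h1 : 17 ≤ r) (h2 : r < 25) : ¬ IsSquare r := by
  rintro ⟨k, rfl⟩
  have h3 : 4 < k := by nlinarith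
  have h4 : k < 5 := by nlinarith
  omega

theorem not_sq_26 {r : ℕ} (h1 : 26 ≤ r) (h2 : r ≤ 35) : ¬ IsSquare r := by
  rintro ⟨k, rfl⟩
  have h3 : 5 < k := by nlinarith
  have h4 : k < 6 := by nlinarith
  omega

/-- **seventeen to twenty-four points** -/
theorem fin4 {r : ℕ} (hr : 17 ≤ r) (hr2 : r < 25) (m : ℕ) (k : Type u) [Field k] [CharZero k] :
    ∃ F : MvPolynomial (Fin (r + 1)) k, F ≠ 0 ∧
      ∀ (c : k) (a : Fin r → k), MvPolynomial.eval (Fin.cons c a : Fin (r + 1) → k) F ≠ 0 →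
        ∀ d : ℕ, (√(r : ℝ) * (2 * m + 1) + (2 / 3 + 1 / (4 * √(r : ℝ))) < 2 * d + 3 ∨
          √(r : ℝ) * (m + 1) ≤ d + 7 / 2 ∨
          2 * (d : ℝ) + 3 + (2 / 3 + 9 / (4 * √(r : ℝ))) < √(r : ℝ) * (2 * m + 1) ∨
          (d : ℝ) ≤ √(r : ℝ) * m + 7 / (8 * √(r : ℝ)) ∨
          (d % 4 = 1 ∧ (d : ℝ) < √(r : ℝ) * m + 15 / 32) ∨
          ((d % 4 = 2 ∨ d % 4 = 3) ∧ (d : ℝ) < √(r : ℝ) * m + 1 / 2)) → JetDim r m c a d := by
  have hchar : CharP k 0 := CharP.ofCharZero k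
  have hsq := not_sq_17 hr hr2
  obtain ⟨D, hD⟩ := large (r := r) (by omega) m k
  refine merge _ D hD fun d hd => ?_
  rcases Nat.eq_zero_or_pos d with h0 | h0
  · rw [h0]
    exact zero_deg (by omega) m k
  obtain ⟨F, hF, hF'⟩ := Pool.Agent.TH183.QS.coll_every (r := r) (by omega) m k
  rcases hd with hd | hd | hd | hd | hd | hd
  · exact ⟨F, hF, fun c a hc => hF' c a hc d (Or.inr (Or.inr (Or.inr hd)))⟩
  · obtain ⟨F1, hF1, hF1'⟩ := ind4_one L7h36.NQ.s_TUBE L7h64.NQ.s_THETA s_asm hr (by omega) hsq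
      (k := k) hd
    exact ⟨F1, hF1, fun c a hc => hF1' c a hc d le_rfl⟩
  · exact ⟨F, hF, fun c a hc => hF' c a hc d (Or.inr (Or.inr (Or.inl hd)))⟩
  · obtain ⟨F1, hF1, hF1'⟩ := emp4_one L7h36.NQ.s_TUBE L7h64.NQ.s_THETA s_asm hr (by omega) hsq
      (k := k) h0 (Or.inr (Or.inr hd))
    exact ⟨F1, hF1, fun c a hc => hF1' c a hc d le_rfl⟩
  · obtain ⟨F1, hF1, hF1'⟩ := emp4_one L7h36.NQ.s_TUBE L7h64.NQ.s_THETA s_asm hr (by omega) hsq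
      (k := k) h0 (Or.inr (Or.inl hd))
    exact ⟨F1, hF1, fun c a hc => hF1' c a hc d le_rfl⟩
  · obtain ⟨F1, hF1, hF1'⟩ := emp4_one L7h36.NQ.s_TUBE L7h64.NQ.s_THETA s_asm hr (by omega) hsq
      (k := k) h0 (Or.inl hd)
    exact ⟨F1, hF1, fun c a hc => hF1' c a hc d le_rfl⟩

/-- **twenty-six to thirty-five points** -/
theorem fin5 {r : ℕ} (hr : 26 ≤ r) (hr2 : r ≤ 35) (m : ℕ) (k : Type u) [Field k] [CharZero k] :
    ∃ F : MvPolynomial (Fin (r + 1)) k, F ≠ 0 ∧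
      ∀ (c : k) (a : Fin r → k), MvPolynomial.eval (Fin.cons c a : Fin (r + 1) → k) F ≠ 0 →
        ∀ d : ℕ, (√(r : ℝ) * (2 * m + 1) + (2 / 3 + 1 / (4 * √(r : ℝ))) < 2 * d + 3 ∨
          √(r : ℝ) * (m + 1) ≤ d + 4 ∨
          2 * (d : ℝ) + 3 + (2 / 3 + 9 / (4 * √(r : ℝ))) < √(r : ℝ) * (2 * m + 1) ∨
          (d % 5 = 1 ∧ (d : ℝ) < √(r : ℝ) * m + 4 / 5) ∨
          (d % 5 = 2 ∧ (d : ℝ) < √(r : ℝ) * m + 24 / 25) ∨
          ((d % 5 = 3 ∨ d % 5 = 4) ∧ (d : ℝ) < √(r : ℝ) * m + 1)) → JetDim r m c a d := by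
  have hchar : CharP k 0 := CharP.ofCharZero k
  have hsq := not_sq_26 hr hr2
  obtain ⟨D, hD⟩ := large (r := r) (by omega) m k
  refine merge _ D hD fun d hd => ?_
  rcases Nat.eq_zero_or_pos d with h0 | h0
  · rw [h0]
    exact zero_deg (by omega) m k
  obtain ⟨F, hF, hF'⟩ := Pool.Agent.TH183.QS.coll_every (r := r) (by omega) m k
  rcases hd with hd | hd | hd | hd | hd | hd
  · exact ⟨F, hF, fun c a hc => hF' c a hc d (Or.inr (Or.inr (Or.inr hd)))⟩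
  · obtain ⟨F1, hF1, hF1'⟩ := ind5_one L7h79.QU.s_TUBE L7h64.NQ.s_THETA asm5 hr (by omega) hsq
      (k := k) hd
    exact ⟨F1, hF1, fun c a hc => hF1' c a hc d le_rfl⟩
  · exact ⟨F, hF, fun c a hc => hF' c a hc d (Or.inr (Or.inr (Or.inl hd)))⟩
  · obtain ⟨F1, hF1, hF1'⟩ := emp5_one L7h79.QU.s_TUBE L7h64.NQ.s_THETA asm5 hr (by omega) hsq
      (k := k) h0 (Or.inr (Or.inr (Or.inl hd)))
    exact ⟨F1, hF1, fun c a hc => hF1' c a hc d le_rfl⟩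
  · obtain ⟨F1, hF1, hF1'⟩ := emp5_one L7h79.QU.s_TUBE L7h64.NQ.s_THETA asm5 hr (by omega) hsq
      (k := k) h0 (Or.inr (Or.inl hd))
    exact ⟨F1, hF1, fun c a hc => hF1' c a hc d le_rfl⟩
  · obtain ⟨F1, hF1, hF1'⟩ := emp5_one L7h79.QU.s_TUBE L7h64.NQ.s_THETA asm5 hr (by omega) hsq
      (k := k) h0 (Or.inl hd)
    exact ⟨F1, hF1, fun c a hc => hF1' c a hc d le_rfl⟩

/-- two flattenings -/
theorem fin_two {q v n : ℕ} {K : ℝ} (h : NumG 25 q v n K 5 (√(n : ℝ))) (hK : K < 26) (hn : 26 ≤ n)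
    (hn2 : n ≤ 35) (m : ℕ) (k : Type u) [Field k] [CharZero k] :
    ∃ F : MvPolynomial (Fin (n + 1)) k, F ≠ 0 ∧
      ∀ (c : k) (a : Fin n → k), MvPolynomial.eval (Fin.cons c a : Fin (n + 1) → k) F ≠ 0 →
        ∀ d : ℕ, (√(n : ℝ) * (2 * m + 1) ≤ 2 * d + 3 ∨ d % 5 = 3 ∨ d % 5 = 4 ∨
          (d % 5 = 1 ∧ (d : ℝ) < √(n : ℝ) * m + 4 / 5) ∨
          (d % 5 = 2 ∧ (d : ℝ) < √(n : ℝ) * m + 1) ∨
          (d % 5 = 0 ∧ (5 + √(n : ℝ)) * (d - 1 - √(n : ℝ) * m) < -4)) → JetDim n m c a d := by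
  have hchar : CharP k 0 := CharP.ofCharZero k
  have hsq := not_sq_26 hn hn2
  obtain ⟨D, hD⟩ := large (r := n) (by omega) m k
  refine merge _ D hD fun d hd => ?_
  rcases Nat.eq_zero_or_pos d with h0 | h0
  · rw [h0]
    exact zero_deg (by omega) m k
  by_cases hT : √(n : ℝ) * (2 * m + 1) ≤ 2 * d + 3
  · obtain ⟨F1, hF1, hF1'⟩ := ind5_two L7h79.QU.s_TUBE L7h64.NQ.s_THETA asm5 h hK
      (k := k) (by omega) hT
    exact ⟨F1, hF1, fun c a hc => hF1' c a hc d le_rfl⟩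
  have hT' := not_le.1 hT
  rcases hd with hd | hd | hd | hd | hd | hd
  · exact absurd hd hT
  · obtain ⟨F1, hF1, hF1'⟩ := emp5_two L7h79.QU.s_TUBE L7h64.NQ.s_THETA asm5 h hK
      (k := k) h0 hT' (Or.inl hd)
    exact ⟨F1, hF1, fun c a hc => hF1' c a hc d le_rfl⟩
  · obtain ⟨F1, hF1, hF1'⟩ := emp5_two L7h79.QU.s_TUBE L7h64.NQ.s_THETA asm5 h hK
      (k := k) h0 hT' (Or.inr (Or.inl hd))
    exact ⟨F1, hF1, fun c a hc => hF1' c a hc d le_rfl⟩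
  · obtain ⟨F1, hF1, hF1'⟩ := emp5_one L7h79.QU.s_TUBE L7h64.NQ.s_THETA asm5 hn (by omega) hsq
      (k := k) h0 (Or.inr (Or.inr (Or.inl hd)))
    exact ⟨F1, hF1, fun c a hc => hF1' c a hc d le_rfl⟩
  · obtain ⟨F1, hF1, hF1'⟩ := emp5_two L7h79.QU.s_TUBE L7h64.NQ.s_THETA asm5 h hK
      (k := k) h0 hT' (Or.inr (Or.inr (Or.inl ⟨hd.1, by linarith [hd.2]⟩)))
    exact ⟨F1, hF1, fun c a hc => hF1' c a hc d le_rfl⟩
  · obtain ⟨F1, hF1, hF1'⟩ := emp5_two L7h79.QU.s_TUBE L7h64.NQ.s_THETA asm5 h hK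
      (k := k) h0 hT' (Or.inr (Or.inr (Or.inr hd)))
    exact ⟨F1, hF1, fun c a hc => hF1' c a hc d le_rfl⟩

/-- **twenty-seven and twenty-nine points** -/
theorem fin27 {r : ℕ} (hr : r = 27 ∨ r = 29) (m : ℕ) (k : Type u) [Field k] [CharZero k] :
    ∃ F : MvPolynomial (Fin (r + 1)) k, F ≠ 0 ∧
      ∀ (c : k) (a : Fin r → k), MvPolynomial.eval (Fin.cons c a : Fin (r + 1) → k) F ≠ 0 →
        ∀ d : ℕ, (√(r : ℝ) * (2 * m + 1) ≤ 2 * d + 3 ∨ d % 5 = 3 ∨ d % 5 = 4 ∨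
          (d % 5 = 1 ∧ (d : ℝ) < √(r : ℝ) * m + 4 / 5) ∨
          (d % 5 = 2 ∧ (d : ℝ) < √(r : ℝ) * m + 1) ∨
          (d % 5 = 0 ∧ (5 + √(r : ℝ)) * (d - 1 - √(r : ℝ) * m) < -4)) → JetDim r m c a d := by
  rcases hr with rfl | rfl
  · exact fin_two (K := (25 + 5 * √((27 : ℕ) : ℝ)) / 2) (q := 2) (v := 1)
      (by push_cast; exact num5_27) (by push_cast; exact K27) (by norm_num) (by norm_num) m k
  · exact fin_two (K := (25 + 5 * √((29 : ℕ) : ℝ)) / 2) (q := 1) (v := 2)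
      (by push_cast; exact num5_29) (by push_cast; exact K29) (by norm_num) (by norm_num) m k

end Pool.Agent.L7h13.QU
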