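import Pool.Agent.L7h13.NQ.Key
import Pool.Agent.L7h13.NQ.Coll
import Pool.Agent.L7h23.QU.Emp

/-!
# Project QU, collisions: the key lemma for one germ

The tube around the nodal quintic (`Pool.Agent.L7h43.QU`); see `L7h13.NQ.Key` for the quartic.
-/

set_option autoImplicit false

namespace Pool.Agent.L7h13.QU

open Pool.Agent.TH603.EL Pool.Agent.L7h43.QU Pool.Agent.TH716.CF
open Pool.Agent.TH518.CW
open Pool.Agent.L7h52.NQ (vec vec_zero vec_one vec_two mI th cst S_THETA)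
open Pool.Agent.L7h13.NQ (low_th)

universe u

section tube
open MvPolynomial
variable {F : Type} [Field F]

theorem low_u0 (hΘ : S_THETA) {τ s : ℝ} (h0 : 0 < τ) (h1 : τ < 1 / 2) (hs : 1 ≤ s)
    (v : MvPolynomial (Fin 2) F) : Low (tubeU τ s v 0) 0 := by
  refine low_th hΘ hs _ fun m _ => ?_
  have a1 : (0 : ℝ) ≤ (m 0 : ℝ) * τ := by positivity
  have a2 : (0 : ℝ) ≤ (m 1 : ℝ) * (1 - τ) := mul_nonneg (Nat.cast_nonneg _) (by linarith)
  linarith

theorem low_u1 (hΘ : S_THETA) {τ s : ℝ} (h0 : 0 < τ) (h1 : τ < 1 / 2) (hs : 1 ≤ s)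
    (v : MvPolynomial (Fin 2) F) : Low (tubeU τ s v 1) τ := by
  refine low_th hΘ hs _ fun m hm => ?_
  have a1 : (0 : ℝ) ≤ (m 0 : ℝ) * τ := by positivity
  have a2 : (0 : ℝ) ≤ (m 1 : ℝ) * (1 - τ) := mul_nonneg (Nat.cast_nonneg _) (by linarith)
  by_cases hm0 : m 0 = 0
  · by_cases hm1 : m 1 = 0
    · exfalso
      rw [mem_support_iff] at hm
      apply hm
      have : m = 0 := by
        ext l
        fin_cases l
        · exact hm0
        · exact hm1
      rw [this, ← constantCoeff_eq, pu, vec_one, Pool.Agent.L7h23.QU.dA_eq]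
      simp
    · have : (1 : ℝ) ≤ m 1 := by exact_mod_cast Nat.one_le_iff_ne_zero.2 hm1
      nlinarith
  · have : (1 : ℝ) ≤ m 0 := by exact_mod_cast Nat.one_le_iff_ne_zero.2 hm0
    nlinarith

theorem coeff_u0 [CharZero F] (hΘ : S_THETA) {τ s : ℝ} (h0 : 0 < τ) (h1 : τ < 1 / 2)
    (hs : 1 ≤ s) (v : MvPolynomial (Fin 2) F) :
    (tubeU τ s v 0).coeff 0 = AddMonoidAlgebra.single 0 (4 : F) := by
  have h := Pool.Agent.L7h23.NQ.th_coeff hΘ h0 h1 hs (pu v 0) 0 (by norm_num)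
  have h2 : (pu v 0).coeff (Finsupp.single 0 0) = (4 : F) := by
    rw [Finsupp.single_zero, ← constantCoeff_eq, pu, vec_zero, dD]
    simp
    rw [show (constantCoeff (2 : MvPolynomial (Fin 2) F)) = 2 from map_ofNat _ 2]
    norm_num
  rw [h2] at h
  simp only [Nat.cast_zero, zero_mul] at h
  exact h

theorem coeff_u1 (hΘ : S_THETA) {τ s : ℝ} (h0 : 0 < τ) (h1 : τ < 1 / 2)
    (hs : 1 ≤ s) (v : MvPolynomial (Fin 2) F) :
    (tubeU τ s v 1).coeff τ = AddMonoidAlgebra.single (1, 0) (1 : F) := by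
  have h := Pool.Agent.L7h23.NQ.th_coeff hΘ h0 h1 hs (pu v 1) 1 le_rfl
  have h2 : (pu v 1).coeff (Finsupp.single 0 1) = (1 : F) := by
    rw [pu, vec_one, Pool.Agent.L7h23.QU.dA_eq, mul_assoc (X 1) v]
    have := Pool.Agent.L7h23.NQ.coeff_lin (F := F) (-3 + 3 * X 0 - X 0 ^ 2) (v * ((1 - X 0) ^ 3 *
      (X 0 * (-7 + 19 * (X 1 * v) - 25 * (X 1 * v) ^ 2 + 16 * (X 1 * v) ^ 3 -
        4 * (X 1 * v) ^ 4) + (1 - (X 1 * v)) ^ 3 * (2 - X 0) ^ 2))) 1
    rw [C_1, one_mul] at this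
    exact this
  rw [h2] at h
  simp only [Nat.cast_one, one_mul] at h
  exact h

end tube

/-- the tube: no nonzero form has all its coefficients in the ideals -/
theorem key5_general (hT : S_TUBE) (hA : S_ASM) {ι : Type} {r w : ι → ℕ} {d : ℕ} {τ : ℝ}
    (h0 : 0 < τ) (h1 : τ < 1 / 2) (h : EmpG 0 r w (E5 τ d)) :
    ∃ (K : Type) (_ : Field K) (_ : CharZero K) (s : ℝ) (v : MvPolynomial (Fin 2) K)
      (φ : ι → (Lau K →+* PowerSeries K)), 1 ≤ s ∧
      (∀ i, IsGerm (φ i)) ∧ ∀ g : MvPolynomial (ZMod 3) (HK K), g.IsHomogeneous d → g ≠ 0 →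
        ¬ ∀ i a, (ev (tubeU τ s v) g).coeff a ∈ J (φ i) (r i) ^ w i := by
  obtain ⟨K, _, _, φ, hφ, hE⟩ := h
  have hchar : CharZero K := CharP.charP_to_charZero K
  obtain ⟨s, hs⟩ : ∃ s : ℝ, s = 5 * (d : ℝ) + 2 := ⟨_, rfl⟩
  have hd : (0 : ℝ) ≤ d := Nat.cast_nonneg d
  have hs1 : 5 * (d : ℝ) + 1 < s := by rw [hs]; linarith
  have hs2 : 1 ≤ s := by rw [hs]; linarith
  have hmin : 0 < min τ (1 - τ) := lt_min h0 (by linarith)
  obtain ⟨n, hn⟩ := exists_nat_gt (s / min τ (1 - τ))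
  rw [div_lt_iff₀ hmin] at hn
  obtain ⟨v, hv⟩ := hT K n
  refine ⟨K, _, hchar, s, v, φ, hs2, hφ, ?_⟩
  intro g hg hne hall
  obtain ⟨a, _, ha, hb⟩ := hA K τ s n d v g h0 (by linarith) hs1 hn hv hg hne
  apply ha
  apply hE
  · rintro ⟨i, j⟩ hm
    exact hb i j hm
  · intro i
    exact hall i a

section unit
variable {K : Type} [Field K] [CharZero K] {τ s : ℝ}

theorem u0_isUnit (hΘ : S_THETA) (h0 : 0 < τ) (h1 : τ < 1 / 2) (hs : 1 ≤ s)
    (v : MvPolynomial (Fin 2) K) : IsUnit (tubeU τ s v 0) := by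
  have h9 : (4 : K) ≠ 0 := by norm_num
  have hsne : (AddMonoidAlgebra.single 0 (4 : K) : Lau K) ≠ 0 := by
    intro h
    have := congrArg (fun u : Lau K => u.coeff 0) h
    simp at this
  have hne : tubeU τ s v 0 ≠ 0 := by
    intro h
    have h2 := coeff_u0 (F := K) hΘ h0 h1 hs v
    rw [h, HahnSeries.coeff_zero] at h2
    exact hsne h2.symm
  have hord : (tubeU τ s v 0).order = 0 := by
    apply le_antisymm
    · apply HahnSeries.order_le_of_coeff_ne_zero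
      rw [coeff_u0 hΘ h0 h1 hs v]
      exact hsne
    · rw [HahnSeries.le_order_iff_forall hne]
      exact low_u0 hΘ h0 h1 hs v
  apply HahnSeries.isUnit_of_isUnit_leadingCoeff_AddUnitOrder
  · rw [HahnSeries.leadingCoeff_eq, hord, coeff_u0 hΘ h0 h1 hs v]
    refine IsUnit.of_mul_eq_one (AddMonoidAlgebra.single 0 (4 : K)⁻¹) ?_
    rw [AddMonoidAlgebra.single_mul_single, add_zero, mul_inv_cancel₀ h9]
    rfl
  · rw [hord]
    exact isAddUnit_zero

/-- the image germ is a graph over the second coordinate -/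
theorem wronski5_ne {φ : Lau K →+* PowerSeries K} (hφ : IsGerm φ) (hΘ : S_THETA) (h0 : 0 < τ)
    (h1 : τ < 1 / 2) (hs : 1 ≤ s) (v : MvPolynomial (Fin 2) K) :
    PowerSeries.coeff 1 (hat φ (tubeU τ s v 1)) * PowerSeries.coeff 0 (hat φ (tubeU τ s v 0)) -
      PowerSeries.coeff 0 (hat φ (tubeU τ s v 1)) * PowerSeries.coeff 1 (hat φ (tubeU τ s v 0)) ≠
        0 := by
  intro h
  have h2 := congrArg (fun u : HK K => u.coeff (τ + 0)) h
  simp only [HahnSeries.coeff_zero, HahnSeries.coeff_sub] at h2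
  have l1 : Low (tubeU τ s v 1) τ := low_u1 hΘ h0 h1 hs v
  have l0 : Low (tubeU τ s v 0) 0 := low_u0 hΘ h0 h1 hs v
  rw [Low.coeff_mul (Low.coeff_hat l1 1) (Low.coeff_hat l0 0),
    Low.coeff_mul (Low.coeff_hat l1 0) (Low.coeff_hat l0 1), coeff_hat, coeff_hat,
    coeff_hat,
    coeff_hat, coeff_u0 hΘ h0 h1 hs v, coeff_u1 hΘ h0 h1 hs v, hφ.const, PowerSeries.coeff_C,
    PowerSeries.coeff_C, if_pos rfl, if_neg one_ne_zero, mul_zero, sub_zero] at h2
  exact (mul_ne_zero hφ.der (by norm_num)) h2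

theorem x_der5_ne {φ : Lau K →+* PowerSeries K}
    (hφ : IsGerm φ) (hΘ : S_THETA) (h0 : 0 < τ) (h1 : τ < 1 / 2) (hs : 1 ≤ s)
    (v : MvPolynomial (Fin 2) K) {V : HR K} (hV : V * tubeU τ s v 0 = 1) :
    PowerSeries.coeff 1 (hat φ (V * tubeU τ s v 1)) ≠ 0 := by
  intro hx1
  have e1 : hat φ (V * tubeU τ s v 1) * hat φ (tubeU τ s v 0) = hat φ (tubeU τ s v 1) := by
    rw [← map_mul]
    congr 1
    calc V * tubeU τ s v 1 * tubeU τ s v 0 = V * tubeU τ s v 0 * tubeU τ s v 1 := by ring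
      _ = tubeU τ s v 1 := by rw [hV, one_mul]
  have e2 := wronski5_ne hφ hΘ h0 h1 hs v
  rw [← e1] at e2
  exact e2 (wr_zero hx1)

end unit

open Polynomial in
theorem key5_coll (hT : S_TUBE) (hΘ : S_THETA) (hA : S_ASM) {r m d : ℕ} {τ : ℝ} (h0 : 0 < τ)
    (h1 : τ < 1 / 2) (h : EmpG 0 (fun _ : Unit => r) (fun _ => m) (E5 τ d)) :
    ∃ (L : Type) (_ : Field L) (_ : CharP L 0) (c : L) (a : Fin r → L),
      ∀ P : MvPolynomial (Fin 3) L, P.IsHomogeneous d →
        (MvPolynomial.aeval ![C X, X, 1] : MvPolynomial (Fin 3) L →ₐ[L] L[X][X]) P ∈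
          (Ideal.span {X - C (∑ j : Fin r, C (a j) * X ^ (j : ℕ)), C ((X - C c) ^ r)} :
            Ideal L[X][X]) ^ m →
        P = 0 := by
  obtain ⟨K, _, _, s, v, φ', hs, hφ', hE⟩ := key5_general hT hA h0 h1 h
  have hφ : IsGerm (φ' ()) := hφ' ()
  obtain ⟨V, hV⟩ : ∃ V : HR K, V * tubeU τ s v 0 = 1 := by
    obtain ⟨u, hu⟩ := u0_isUnit (K := K) hΘ h0 h1 hs v
    exact ⟨↑u⁻¹, by rw [← hu]; exact Units.inv_mul u⟩
  have hx : PowerSeries.coeff 1 (hat (φ' ()) (V * tubeU τ s v 1)) ≠ 0 :=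
    x_der5_ne hφ hΘ h0 h1 hs v hV
  have hle : J (hat (φ' ())) r ^ m ≤ CI (J (φ' ()) r ^ m) := by
    rw [J_hat]
    exact CI_pow_le _ _
  have hchar : CharP (HK K) 0 := by
    have : CharP K 0 := CharP.ofCharZero K
    infer_instance
  exact ⟨HK K, inferInstance, hchar,
    coll_gen incl (tubeU τ s v) hV (hat (φ' ())) (hat_incl hφ.const) hx hle
      fun g hg hne hmem => hE g hg hne fun _ a => hmem a⟩

open Polynomial in
theorem key5_coll_v (hT : S_TUBE) (hΘ : S_THETA) (hA : S_ASM) {r m d v' : ℕ} {τ : ℝ}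
    (h0 : 0 < τ) (h1 : τ < 1 / 2)
    (h : EmpG 0 (fun o : Option (Fin v') => o.elim r fun _ => 1) (fun o => o.elim m fun _ => 1)
      (E5 τ d)) :
    ∃ (L : Type) (_ : Field L) (_ : CharP L 0) (c : L) (a : Fin r → L)
      (lm : MvPolynomial (Fin 3) L →ₗ[L] (Fin v' → L)),
      ∀ P : MvPolynomial (Fin 3) L, P.IsHomogeneous d →
        (MvPolynomial.aeval ![C X, X, 1] : MvPolynomial (Fin 3) L →ₐ[L] L[X][X]) P ∈
          (Ideal.span {X - C (∑ j : Fin r, C (a j) * X ^ (j : ℕ)), C ((X - C c) ^ r)} :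
            Ideal L[X][X]) ^ m →
        lm P = 0 → P = 0 := by
  obtain ⟨K, _, _, s, v, φ', hs, hφ', hE⟩ := key5_general hT hA h0 h1 h
  have hφ : IsGerm (φ' none) := hφ' none
  obtain ⟨V, hV⟩ : ∃ V : HR K, V * tubeU τ s v 0 = 1 := by
    obtain ⟨u, hu⟩ := u0_isUnit (K := K) hΘ h0 h1 hs v
    exact ⟨↑u⁻¹, by rw [← hu]; exact Units.inv_mul u⟩
  have hx : PowerSeries.coeff 1 (hat (φ' none) (V * tubeU τ s v 1)) ≠ 0 :=
    x_der5_ne hφ hΘ h0 h1 hs v hV
  have hle : J (hat (φ' none)) r ^ m ≤ CI (J (φ' none) r ^ m) := by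
    rw [J_hat]
    exact CI_pow_le _ _
  have hchar : CharP (HK K) 0 := by
    have : CharP K 0 := CharP.ofCharZero K
    infer_instance
  obtain ⟨c, a, hca⟩ := coll_genV (d := d) incl (tubeU τ s v) hV (hat (φ' none))
    (hat_incl hφ.const) hx hle
  refine ⟨HK K, inferInstance, hchar, c, a,
    LinearMap.pi fun j => lmf (tubeU τ s v) (φ' (some j)) (hφ' (some j)).const, ?_⟩
  intro P hP hP' hlm
  by_contra hne
  refine hE (MvPolynomial.rename cyc P) hP.rename_isHomogeneous ?_ ?_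
  · intro h3
    exact hne (MvPolynomial.rename_injective _ cyc.injective (by rw [h3, map_zero]))
  · rintro (_ | j) b
    · exact hca P hP hP' b
    · have h3 : PowerSeries.coeff 0 (hat (φ' (some j))
          (MvPolynomial.eval₂Hom incl (tubeU τ s v) (MvPolynomial.rename cyc P))) = 0 :=
        congrFun hlm j
      simp only [Option.elim_some, pow_one]
      rw [mem_J]
      intro n hn
      have hn0 : n = 0 := by omega
      subst hn0
      have h4 := congrArg (fun u : HK K => u.coeff b) h3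
      simp only [HahnSeries.coeff_zero] at h4
      rw [coeff_hat] at h4
      exact h4

section
open Pool.Agent.H932R2 Pool.Agent.H932R3 Pool.Agent.TH545.CF

/-- independence from the emptiness statement with simple points -/
theorem ind5_of_emp (hTu : S_TUBE) (hΘ : S_THETA) (hAs : S_ASM) {k : Type u} [Field k] [CharP k 0]
    {r m d : ℕ} {τ : ℝ}
    (h0 : 0 < τ) (h1 : τ < 1 / 2) (hle : r * (m + 1).choose 2 ≤ (d + 2).choose 2)
    (hE : EmpG 0 (fun o : Option (Fin ((d + 2).choose 2 - r * (m + 1).choose 2)) =>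
      o.elim r fun _ => 1) (fun o => o.elim m fun _ => 1) (E5 τ d)) :
    ∃ F : MvPolynomial (Fin (r + 1)) k, F ≠ 0 ∧
      ∀ (c : k) (a : Fin r → k), MvPolynomial.eval (Fin.cons c a : Fin (r + 1) → k) F ≠ 0 →
        ∀ d' ≥ d, JetDim r m c a d' := by
  classical
  obtain ⟨L, _, _, c0, a0, lm, hlm⟩ := key5_coll_v hTu hΘ hAs h0 h1 hE
  have h2 := rows_of_forms (K := L) (r := r) (m := m) (d := d)
    (n := (d + 2).choose 2 - r * (m + 1).choose 2) (c0 := c0) (a0 := a0) (by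
      rw [card_Tfin_choose, card_EE_eq']
      omega) lm (fun P hP hP' h3 => hlm P hP hP' h3)
  obtain ⟨F, hF, hF'⟩ := open_rank (L := k) 0 h2
  refine ⟨F, hF, fun c a hc d' hd' => ?_⟩
  have h3 := hF' c a hc
  rw [card_EE_eq'] at h3
  exact jet_indep h3 d' hd'

end

end Pool.Agent.L7h13.QU
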