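import Pool.Agent.L7h13.QU.Reg
import Pool.Agent.L7h13.QU.Key

/-!
# Project QU, collisions: all numbers of points from twenty-six on, one flattening
-/

set_option autoImplicit false

namespace Pool.Agent.L7h13.QU

open Pool.Agent.TH603.EL Pool.Agent.TH716.CF Pool.Agent.TH518.CW Pool.Agent.L7h43.QU
open Pool.Agent.H932R2 Pool.Agent.H932R3 Pool.Agent.TH545.CF
open Pool.Agent.L7h13.NQ
open Pool.Agent.L7h52.NQ (S_THETA)

universe u

/-- the parameters for the quintic -/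
theorem par5 {n : ℕ} (hn : 26 ≤ n) (hn2 : n ≤ 100) (hsq : ¬ IsSquare n) :
    Par 25 n ⌈5 * √(n : ℝ)⌉ (25 + ⌈5 * √(n : ℝ)⌉ - 5 * √(n : ℝ)) 5 (√(n : ℝ)) ∧
      Irrational (25 + ⌈5 * √(n : ℝ)⌉ - 5 * √(n : ℝ)) ∧
      (⌈5 * √(n : ℝ)⌉ : ℝ) < 5 * √(n : ℝ) + 1 ∧ 5 < √(n : ℝ) := by
  have hirr : Irrational (√(n : ℝ)) := irr_sqrt hsq
  have hirr4 : Irrational (5 * √(n : ℝ)) := by
    have := hirr.natCast_mul (m := 5) (by norm_num)
    push_cast at this
    exact this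
  have h4 : 5 < √(n : ℝ) := by
    rw [Real.lt_sqrt (by norm_num)]
    have : (26 : ℝ) ≤ n := by exact_mod_cast hn
    linarith
  have h8 : √(n : ℝ) ≤ 10 := by
    rw [Real.sqrt_le_left (by norm_num)]
    have : (n : ℝ) ≤ 100 := by exact_mod_cast hn2
    linarith
  have hs : √(n : ℝ) ^ 2 = n := Real.sq_sqrt (Nat.cast_nonneg n)
  have hc : 5 * √(n : ℝ) < ⌈5 * √(n : ℝ)⌉ :=
    lt_of_le_of_ne (Int.le_ceil _) fun h => Int.not_irrational _ (h ▸ hirr4)
  have hc2 := Int.ceil_lt_add_one (5 * √(n : ℝ))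
  refine ⟨⟨by norm_num, hs, by norm_num, h4, by linarith, by push_cast; ring, hc⟩, ?_, hc2, h4⟩
  have e1 : 25 + (⌈5 * √(n : ℝ)⌉ : ℝ) - 5 * √(n : ℝ) =
      ((25 + ⌈5 * √(n : ℝ)⌉ : ℤ) : ℝ) - 5 * √(n : ℝ) := by push_cast; ring
  rw [e1]
  exact hirr4.intCast_sub _

/-- the additional exponents -/
theorem extra5 {n m d : ℕ} {c : ℤ} {K σ : ℝ} (h : Par 25 n c K 5 σ) (hc : (c : ℝ) < 5 * σ + 1)
    (hc2 : d % 5 = 2 → (d : ℝ) < σ * m + 24 / 25)
    (hc1 : d % 5 = 1 → (d : ℝ) < σ * m + 4 / 5)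
    (hc0 : d % 5 = 0 → (d : ℝ) ≤ σ * m + 9 / (5 * σ)) :
    Extra n m c 5 σ (((d : ℝ) - 1) / 5) (T5 d) := by
  have h4 := h.ds
  have hcl := h.hc
  have hs2 := h.s2
  have hn : (25 : ℝ) < n := by rw [← hs2]; nlinarith
  have hnZ : (25 : ℤ) < n := by exact_mod_cast hn
  refine ⟨fun p hp => hp.1, ?_, ?_, ?_⟩
  · rintro ⟨x, j⟩ ⟨h1, ⟨h2, h3⟩ | ⟨h2, h3⟩ | ⟨h2, h3⟩⟩
    · simp only at h1 h2 h3
      right
      have hj : (d : ℝ) = 5 * j + 2 := by exact_mod_cast h3.symm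
      have hd := hc2 (by omega)
      have e1 : cr c 5 σ (((d : ℝ) - 1) / 5) (ca c ((x, j) : ℤ × ℤ)) =
          5 * σ * (((d : ℝ) - 1) / 5) - c / 5 := by
        unfold cr ca
        simp only
        rw [h2, hj]
        push_cast
        ring
      rw [e1]
      have e2 : (5 * σ * j - (5 * σ * (((d : ℝ) - 1) / 5) - c / 5)) = (c - 5 * σ) / 5 := by
        rw [hj]; ring
      simp only
      rw [e2]
      refine ⟨by linarith, by linarith, ?_⟩
      rw [← hs2]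
      have e3 : σ * ((c - 5 * σ) / 5) < σ * (1 / 5) := mul_lt_mul_of_pos_left (by linarith) (by linarith)
      have e4 : σ * (5 * (d : ℝ) - 5 + 1 / 5) < σ * (5 * (σ * m)) :=
        mul_lt_mul_of_pos_left (by linarith) (by linarith)
      linarith
    · simp only at h1 h2 h3
      have hj : (d : ℝ) = 5 * j + 1 := by exact_mod_cast h3.symm
      have hd := hc1 (by omega)
      have e1 : cr c 5 σ (((d : ℝ) - 1) / 5) (ca c ((x, j) : ℤ × ℤ)) =
          5 * σ * (((d : ℝ) - 1) / 5) + x := by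
        unfold cr ca
        simp only
        rw [hj]
        push_cast
        ring
      rw [e1]
      rcases h2 with h2 | h2
      · right
        rw [h2]
        have e2 : (5 * σ * j - (5 * σ * (((d : ℝ) - 1) / 5) + ((-1 : ℤ) : ℝ))) = 1 := by
          rw [hj]; push_cast; ring
        simp only
        rw [e2]
        refine ⟨one_pos, by push_cast; linarith, ?_⟩
        rw [← hs2]
        have e4 : σ * (5 * (d : ℝ) - 5 + 1) < σ * (5 * (σ * m)) :=
          mul_lt_mul_of_pos_left (by linarith) (by linarith)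
        linarith
      · left
        rw [h2]
        push_cast
        refine ⟨by linarith, ?_⟩
        rw [← hs2]
        have e4 : σ * ((d : ℝ) - 4 / 5) < σ * (σ * m) :=
          mul_lt_mul_of_pos_left (by linarith) (by linarith)
        linarith
    · simp only at h1 h2 h3
      left
      have hj : (d : ℝ) = 5 * j := by exact_mod_cast h3.symm
      have hd := hc0 (by omega)
      have e1 : cr c 5 σ (((d : ℝ) - 1) / 5) (ca c ((x, j) : ℤ × ℤ)) =
          5 * σ * (((d : ℝ) - 1) / 5) + c / 5 - 2 := by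
        unfold cr ca
        simp only
        rw [h2, hj]
        push_cast
        ring
      rw [e1]
      refine ⟨by linarith, ?_⟩
      rw [← hs2]
      have e3 : σ * (d : ℝ) ≤ σ * (σ * m + 9 / (5 * σ)) := mul_le_mul_of_nonneg_left hd (by linarith)
      have e4 : σ * (9 / (5 * σ)) = 9 / 5 := by
        have : σ ≠ 0 := by linarith
        field_simp
      have e5 : σ * (σ * m + 9 / (5 * σ)) = σ * (σ * m) + 9 / 5 := by rw [mul_add, e4]
      rw [e5] at e3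
      linarith
  · rintro ⟨x, j⟩ ⟨h1, h2⟩ ⟨x', j'⟩ ⟨h3, h4⟩ he
    simp only at h1 h2 h3 h4
    unfold ca at he
    simp only at he
    have hjj : j = j' := by omega
    subst hjj
    ext
    · simp only; linarith
    · rfl
  · rintro ⟨x, j⟩ ⟨h1, h2⟩ ⟨x', j'⟩ ⟨h3, h4⟩
    simp only at h1 h2 h3 h4
    unfold ca
    simp only
    have hjj : j = j' := by omega
    subst hjj
    omega

/-- emptiness in degree `d` and below -/
theorem emp5_one (hTu : S_TUBE) (hΘ : S_THETA) (hAs : S_ASM) {n : ℕ} (hn : 26 ≤ n) (hn2 : n ≤ 100)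
    (hsq : ¬ IsSquare n) {k : Type u} [Field k] [CharP k 0] {m d : ℕ} (hd : 1 ≤ d)
    (hc : (d % 5 = 3 ∨ d % 5 = 4) ∧ (d : ℝ) < √(n : ℝ) * m + 1 ∨
      d % 5 = 2 ∧ (d : ℝ) < √(n : ℝ) * m + 24 / 25 ∨
      d % 5 = 1 ∧ (d : ℝ) < √(n : ℝ) * m + 4 / 5 ∨
      (d : ℝ) ≤ √(n : ℝ) * m + 9 / (5 * √(n : ℝ))) :
    ∃ F : MvPolynomial (Fin (n + 1)) k, F ≠ 0 ∧
      ∀ (c : k) (a : Fin n → k), MvPolynomial.eval (Fin.cons c a : Fin (n + 1) → k) F ≠ 0 →
        ∀ d' ≤ d, JetDim n m c a d' := by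
  obtain ⟨hP, hirr, hc2, h4⟩ := par5 hn hn2 hsq
  obtain ⟨σ, hσ⟩ : ∃ σ : ℝ, σ = √(n : ℝ) := ⟨_, rfl⟩
  rw [← hσ] at hP hirr hc2 h4 hc
  obtain ⟨c, hcc⟩ : ∃ c : ℤ, c = ⌈5 * σ⌉ := ⟨_, rfl⟩
  rw [← hcc] at hP hirr hc2
  obtain ⟨K, hK⟩ : ∃ K : ℝ, K = 25 + c - 5 * σ := ⟨_, rfl⟩
  rw [← hK] at hP hirr
  have hc1 := hP.hc
  have h7 : 9 / (5 * σ) < 4 / 5 := by
    rw [div_lt_div_iff₀ (by linarith) (by norm_num)]
    linarith
  have hdR : (1 : ℝ) ≤ d := by exact_mod_cast hd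
  have hall : (d : ℝ) < σ * m + 1 := by
    rcases hc with hc | hc | hc | hc
    · exact hc.2
    · linarith [hc.2]
    · linarith [hc.2]
    · linarith
  have hX : Extra n m c 5 σ (((d : ℝ) - 1) / 5) (T5 d) := by
    refine extra5 hP hc2 (fun h1 => ?_) (fun h1 => ?_) (fun h1 => ?_)
    · rcases hc with hc | hc | hc | hc
      · omega
      · exact hc.2
      · omega
      · linarith
    · rcases hc with hc | hc | hc | hc
      · omega
      · omega
      · exact hc.2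
      · linarith
    · rcases hc with hc | hc | hc | hc
      · omega
      · omega
      · omega
      · exact hc
  have hE : EmpG 0 (fun _ : Unit => n) (fun _ => m) (E5 ((35 - K) / 25) d) := by
    apply e5_of_bk (by linarith) (by linarith)
    rw [b5_eq]
    refine emp_one hP hX (by linarith) ?_
    rw [← hP.s2]
    have : σ * ((d : ℝ) - 1) < σ * (σ * m) := mul_lt_mul_of_pos_left (by linarith) (by linarith)
    linarith
  obtain ⟨L, _, _, c0, a0, h0⟩ := key5_coll hTu hΘ hAs (by linarith) (by linarith) hE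
  obtain ⟨F, hF, hF'⟩ := coll_transfer (L := k) 0 (r := n) (m := m) (c0 := c0) (a0 := a0)
    (d := d) (fun P hP hP' => h0 P hP hP')
  refine ⟨F, hF, fun c a hc d' hd' => ?_⟩
  exact jet_full ((hF' c a hc).mono hd').rk d' le_rfl

/-- independence in degree `d` and above -/
theorem ind5_one (hTu : S_TUBE) (hΘ : S_THETA) (hAs : S_ASM) {n : ℕ} (hn : 26 ≤ n) (hn2 : n ≤ 100)
    (hsq : ¬ IsSquare n) {k : Type u} [Field k] [CharP k 0] {m d : ℕ}
    (hc : √(n : ℝ) * (m + 1) ≤ d + 4) :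
    ∃ F : MvPolynomial (Fin (n + 1)) k, F ≠ 0 ∧
      ∀ (c : k) (a : Fin n → k), MvPolynomial.eval (Fin.cons c a : Fin (n + 1) → k) F ≠ 0 →
        ∀ d' ≥ d, JetDim n m c a d' := by
  obtain ⟨hP, hirr, hc2, h4⟩ := par5 hn hn2 hsq
  obtain ⟨σ, hσ⟩ : ∃ σ : ℝ, σ = √(n : ℝ) := ⟨_, rfl⟩
  rw [← hσ] at hP hirr hc2 h4 hc
  obtain ⟨c, hcc⟩ : ∃ c : ℤ, c = ⌈5 * σ⌉ := ⟨_, rfl⟩
  rw [← hcc] at hP hirr hc2
  obtain ⟨K, hK⟩ : ∃ K : ℝ, K = 25 + c - 5 * σ := ⟨_, rfl⟩
  rw [← hK] at hP hirr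
  have hc1 := hP.hc
  obtain ⟨hf, hcard⟩ := bk_card5 hirr (by linarith) (by linarith) d
  obtain ⟨hle, hE⟩ := ind_one hP (η := ((d : ℝ) - 1) / 5) (m := m) (N := (d + 2).choose 2) hf
    (by rw [b5_eq]; exact Set.subset_union_left) hcard (by
      rw [← hP.s2]
      have : σ * (σ * (m + 1)) ≤ σ * (d + 4) := mul_le_mul_of_nonneg_left hc (by linarith)
      linarith)
  exact ind5_of_emp hTu hΘ hAs (by linarith) (by linarith) hle
    (e5_of_bk (K := K) (by linarith) (by linarith) hE)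

end Pool.Agent.L7h13.QU
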