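import Pool.Agent.L7h13.NQ.Gen
import Pool.Agent.L7h23.QU.Sur

/-!
# Project QU, collisions: the region of the quintic and the block
-/

set_option autoImplicit false

namespace Pool.Agent.L7h13.QU

open Pool.Agent.TH603.EL Pool.Agent.TH716.CF Pool.Agent.TH518.CW Pool.Agent.L7h43.QU
open Pool.Agent.N388.EFC
open Pool.Agent.L7h13.NQ

/-- the coordinates `(x, j)` -/
def cx5 (d : ℕ) (m : ℤ × ℤ) : ℤ × ℤ := (m.1 - 10 * m.2 + (2 * d - 2), m.2)

/-- the additional exponents -/
def T5 (d : ℕ) : Set (ℤ × ℤ) :=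
  {p | 0 ≤ p.2 ∧ ((p.1 = 0 ∧ 5 * p.2 + 2 = d) ∨ ((p.1 = -1 ∨ p.1 = 1) ∧ 5 * p.2 + 1 = d) ∨
    (p.1 = -2 ∧ 5 * p.2 = d))}

theorem hrow5 {d : ℕ} (j : ℤ) (h1 : 0 ≤ j) (h2 : 5 * j ≤ d) :
    ∃ e : ℕ, (e : ℤ) = d - 5 * j ∧ d - 5 * j.toNat = e ∧ (e : ℝ) = d - 5 * j := by
  refine ⟨d - 5 * j.toNat, by omega, rfl, ?_⟩
  have h3 : ((d - 5 * j.toNat : ℕ) : ℤ) = d - 5 * j := by omega
  exact_mod_cast h3

theorem hh3 (e : ℕ) (he : 3 ≤ e) : ((hh e : ℕ) : ℝ) = 5 * e - 5 := by
  have h1 : hh e = 5 * e - 5 := by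
    unfold hh
    rw [if_neg (by omega), if_neg (by omega), if_neg (by omega)]
  rw [h1, Nat.cast_sub (by omega)]
  push_cast
  ring

theorem hh_two : ((hh 2 : ℕ) : ℝ) = 6 := by
  unfold hh
  norm_num

theorem hh_one : ((hh 1 : ℕ) : ℝ) = 3 := by
  unfold hh
  norm_num

theorem hh_zero : ((hh 0 : ℕ) : ℝ) = 1 := by
  unfold hh
  norm_num

theorem e5_sub {K : ℝ} {d : ℕ} (hK1 : 25 < K) (hK2 : K < 26) {m : ℤ × ℤ}
    (hm : m ∈ E5 ((35 - K) / 25) d) : cx5 d m ∈ B5 25 K d ∪ T5 d := by
  obtain ⟨i, j⟩ := m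
  obtain ⟨g1, g2, g3, g4⟩ := hm
  simp only at g1 g2 g3 g4
  obtain ⟨e, he1, he2, he3⟩ := hrow5 j g1 g2
  rw [he2] at g3 g4
  unfold cx5
  simp only
  rcases Nat.lt_or_ge e 3 with h5 | h5
  · rcases (by omega : e = 0 ∨ e = 1 ∨ e = 2) with h7 | h7 | h7
    · subst h7
      rw [hh_zero] at g3 g4
      have i1 : (-1 : ℝ) < i := by linarith
      have i2 : (i : ℝ) < 1 := by linarith
      have i3 : -1 < i := by exact_mod_cast i1
      have i4 : i < 1 := by exact_mod_cast i2
      push_cast at he1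
      right
      exact ⟨by simp only; omega, Or.inr (Or.inr ⟨by simp only; omega, by simp only; omega⟩)⟩
    · subst h7
      rw [hh_one] at g3 g4
      have i1 : (-2 : ℝ) < i := by linarith
      have i2 : (i : ℝ) < 2 := by linarith
      have i3 : -2 < i := by exact_mod_cast i1
      have i4 : i < 2 := by exact_mod_cast i2
      push_cast at he1 he3
      have hx : i - 10 * j + (2 * (d : ℤ) - 2) = i := by linarith
      have h8 : ((d : ℝ) - 1) / 5 - j = 0 := by linarith
      rw [hx]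
      rcases (by omega : i = -1 ∨ i = 0 ∨ i = 1) with h7 | h7 | h7
      · right
        exact ⟨by simp only; omega, Or.inr (Or.inl ⟨Or.inl h7, by simp only; omega⟩)⟩
      · left
        refine ⟨by simp only; omega, ?_, ?_⟩
        · simp only
          rw [h7, h8]
          simp
        · simp only
          rw [h7, h8]
          simp
      · right
        exact ⟨by simp only; omega, Or.inr (Or.inl ⟨Or.inr h7, by simp only; omega⟩)⟩
    · subst h7
      rw [hh_two] at g3 g4
      have i1 : (-3 : ℝ) < i := by linarith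
      have i2 : (i : ℝ) < 4 := by linarith
      have i3 : -3 < i := by exact_mod_cast i1
      have i4 : i < 4 := by exact_mod_cast i2
      push_cast at he1 he3
      obtain ⟨x, hx'⟩ : ∃ x : ℤ, x = i + 2 := ⟨_, rfl⟩
      have hx : i - 10 * j + (2 * (d : ℤ) - 2) = x := by rw [hx']; linarith
      have h8 : ((d : ℝ) - 1) / 5 - j = 1 / 5 := by linarith
      rw [hx]
      by_cases hx0 : x = 0
      · right
        exact ⟨by simp only; omega, Or.inl ⟨hx0, by simp only; omega⟩⟩
      · left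
        have x1 : (1 : ℝ) ≤ x := by
          have : 1 ≤ x := by omega
          exact_mod_cast this
        have x2 : (x : ℝ) ≤ 5 := by
          have : x ≤ 5 := by omega
          exact_mod_cast this
        refine ⟨by simp only; omega, ?_, ?_⟩
        · simp only
          push_cast
          rw [h8]
          linarith
        · simp only
          rw [h8]
          linarith
  · left
    rw [hh3 e h5] at g3 g4
    refine ⟨by simp only; omega, ?_, ?_⟩
    · simp only
      push_cast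
      rw [he3] at g3
      linarith
    · simp only
      push_cast
      rw [he3] at g4
      linarith

theorem b5_pos {K : ℝ} (hK : 25 < K) {d : ℕ} {t j : ℤ} (h : ((t, j) : ℤ × ℤ) ∈ B5 25 K d) :
    0 ≤ ((d : ℝ) - 1) / 5 - j ∧ 0 ≤ t ∧ (0 < ((d : ℝ) - 1) / 5 - j → 1 ≤ t) ∧
      (((d : ℝ) - 1) / 5 - j = 0 → t = 0) := by
  obtain ⟨g1, g2, g3⟩ := h
  simp only at g1 g2 g3
  push_cast at g2
  obtain ⟨u, hu⟩ : ∃ u : ℝ, u = ((d : ℝ) - 1) / 5 - j := ⟨_, rfl⟩
  rw [← hu] at g2 g3 ⊢
  have hu0 : 0 ≤ u := by nlinarith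
  have ht0 : (0 : ℝ) ≤ t := by nlinarith
  refine ⟨hu0, by exact_mod_cast ht0, fun h1 => ?_, fun h1 => ?_⟩
  · have h3 : (0 : ℝ) < t := by nlinarith
    have h4 : 0 < t := by exact_mod_cast h3
    omega
  · rw [h1] at g2 g3
    have h3 : (t : ℝ) = 0 := by linarith
    exact_mod_cast h3

theorem sub_e5 {K : ℝ} {d : ℕ} (hK1 : 25 < K) (hK2 : K < 26) {p : ℤ × ℤ}
    (hp : p ∈ B5 25 K d ∪ T5 d) : ∃ m ∈ E5 ((35 - K) / 25) d, cx5 d m = p := by
  obtain ⟨x, j⟩ := p
  rcases hp with hp | hp
  · obtain ⟨hη, hx0, hx1, hx2⟩ := b5_pos hK1 hp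
    obtain ⟨g1, g2, g3⟩ := hp
    simp only at g1 g2 g3
    push_cast at g2
    have hj : 5 * j + 1 ≤ d := by
      have h1 : 5 * (j : ℝ) ≤ d - 1 := by linarith
      have h2 : 5 * j ≤ (d : ℤ) - 1 := by exact_mod_cast h1
      omega
    obtain ⟨e, he1, he2, he3⟩ := hrow5 (d := d) j g1 (by omega)
    refine ⟨(x - (2 * d - 2) + 10 * j, j), ⟨g1, by simp only; omega, ?_, ?_⟩, ?_⟩
    · simp only
      rw [he2]
      rcases (by omega : e = 1 ∨ e = 2 ∨ 3 ≤ e) with h5 | h5 | h5
      · subst h5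
        rw [hh_one]
        push_cast at he3 ⊢
        have h6 : x = 0 := hx2 (by linarith)
        rw [h6]
        push_cast
        linarith
      · subst h5
        rw [hh_two]
        push_cast at he3 ⊢
        have h6 : (1 : ℝ) ≤ x := by exact_mod_cast hx1 (by linarith)
        linarith
      · rw [hh3 e h5, he3]
        push_cast
        linarith
    · simp only
      rw [he2]
      rcases (by omega : e = 1 ∨ e = 2 ∨ 3 ≤ e) with h5 | h5 | h5
      · subst h5
        rw [hh_one]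
        push_cast at he3 ⊢
        have h6 : x = 0 := hx2 (by linarith)
        rw [h6]
        push_cast
        linarith
      · subst h5
        rw [hh_two]
        push_cast at he3 ⊢
        have h8 : ((d : ℝ) - 1) / 5 - j = 1 / 5 := by linarith
        rw [h8] at g3
        have h7 : (x : ℝ) < 6 := by linarith
        have h9 : x < 6 := by exact_mod_cast h7
        have h10 : (x : ℝ) ≤ 5 := by
          have : x ≤ 5 := by omega
          exact_mod_cast this
        linarith
      · rw [hh3 e h5, he3]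
        push_cast
        linarith
    · unfold cx5
      ext
      · simp only; ring
      · rfl
  · obtain ⟨g1, ⟨g2, g3⟩ | ⟨g2, g3⟩ | ⟨g2, g3⟩⟩ := hp
    · simp only at g1 g2 g3
      obtain ⟨e, he1, he2, he3⟩ := hrow5 (d := d) j g1 (by omega)
      have h6 : e = 2 := by omega
      subst h6
      refine ⟨(-2, j), ⟨g1, by simp only; omega, ?_, ?_⟩, ?_⟩
      · simp only
        rw [he2, hh_two]
        push_cast
        linarith
      · simp only
        rw [he2, hh_two]
        push_cast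
        linarith
      · unfold cx5
        ext
        · simp only; omega
        · rfl
    · simp only at g1 g2 g3
      obtain ⟨e, he1, he2, he3⟩ := hrow5 (d := d) j g1 (by omega)
      have h6 : e = 1 := by omega
      subst h6
      have hx1 : (-1 : ℝ) ≤ x := by
        have : -1 ≤ x := by omega
        exact_mod_cast this
      have hx2 : (x : ℝ) ≤ 1 := by
        have : x ≤ 1 := by omega
        exact_mod_cast this
      refine ⟨(x, j), ⟨g1, by simp only; omega, ?_, ?_⟩, ?_⟩
      · simp only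
        rw [he2, hh_one]
        linarith
      · simp only
        rw [he2, hh_one]
        linarith
      · unfold cx5
        ext
        · simp only; omega
        · rfl
    · simp only at g1 g2 g3
      obtain ⟨e, he1, he2, he3⟩ := hrow5 (d := d) j g1 (by omega)
      have h6 : e = 0 := by omega
      subst h6
      refine ⟨(0, j), ⟨g1, by simp only; omega, ?_, ?_⟩, ?_⟩
      · simp only
        rw [he2, hh_zero]
        push_cast
        linarith
      · simp only
        rw [he2, hh_zero]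
        push_cast
        linarith
      · unfold cx5
        ext
        · simp only; omega
        · rfl

/-- from the block with the additional exponents to the region of the quintic -/
theorem e5_of_bk {ι : Type} {r w : ι → ℕ} {K : ℝ} {d : ℕ} (hK1 : 25 < K) (hK2 : K < 26)
    (h : EmpG 0 r w (B5 25 K d ∪ T5 d)) : EmpG 0 r w (E5 ((35 - K) / 25) d) := by
  have e1 : EmpG 0 r w {m : ℤ × ℤ | ((2 * (d : ℤ) - 2, 0) : ℤ × ℤ) + m ∈ B5 25 K d ∪ T5 d} :=
    EmpG_shift ((2 * (d : ℤ) - 2, 0) : ℤ × ℤ) h (fun m hm => hm)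
  refine e1.shear (-10) ?_
  intro m hm
  have h2 := e5_sub hK1 hK2 hm
  show ((2 * (d : ℤ) - 2, 0) : ℤ × ℤ) + (m.1 + -10 * m.2, m.2) ∈ B5 25 K d ∪ T5 d
  have h3 : ((2 * (d : ℤ) - 2, 0) : ℤ × ℤ) + (m.1 + -10 * m.2, m.2) = cx5 d m := by
    unfold cx5
    ext
    · simp only [Prod.fst_add]; ring
    · simp only [Prod.snd_add]; ring
  rw [h3]
  exact h2

theorem tau_irr5 {K : ℝ} (h : Irrational K) : Irrational ((35 - K) / 25) := by
  have h1 : (35 - K) / 25 = (((35 : ℕ) : ℝ) - K) / ((25 : ℕ) : ℝ) := by norm_num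
  rw [h1]
  exact (h.natCast_sub 35).div_natCast (by norm_num)

theorem bk_card5 {K : ℝ} (hi : Irrational K) (h1 : 25 < K) (h2 : K < 26) (d : ℕ) :
    (B5 25 K d ∪ T5 d).Finite ∧ (B5 25 K d ∪ T5 d).ncard ≤ (d + 2).choose 2 := by
  classical
  obtain ⟨A, hA, hAc⟩ := Pool.Agent.L7h23.QU.exists_fin (tau_irr5 hi) d
  have hsub : B5 25 K d ∪ T5 d ⊆ ((A.image (cx5 d) : Finset (ℤ × ℤ)) : Set (ℤ × ℤ)) := by
    intro p hp
    obtain ⟨m, hm, hmp⟩ := sub_e5 h1 h2 hp
    rw [Finset.mem_coe, Finset.mem_image]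
    refine ⟨m, ?_, hmp⟩
    rw [← Finset.mem_coe, hA]
    exact hm
  refine ⟨(Finset.finite_toSet _).subset hsub, ?_⟩
  refine (Set.ncard_le_ncard hsub (Finset.finite_toSet _)).trans ?_
  rw [Set.ncard_coe_finset]
  exact Finset.card_image_le.trans hAc

theorem b5_eq (K : ℝ) (d : ℕ) : B5 25 K d = BB 25 K (((d : ℝ) - 1) / 5) := rfl

end Pool.Agent.L7h13.QU
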