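import Pool.Agent.L7h13.NQ.TwoG
import Pool.Agent.L7h13.QU.Q5

/-!
# Project QU, collisions: twenty-seven and twenty-nine points, two flattenings
-/

set_option autoImplicit false

namespace Pool.Agent.L7h13.QU

open Pool.Agent.TH603.EL Pool.Agent.TH716.CF Pool.Agent.TH518.CW Pool.Agent.L7h43.QU
open Pool.Agent.H932R2 Pool.Agent.H932R3 Pool.Agent.TH545.CF
open Pool.Agent.L7h13.NQ
open Pool.Agent.L7h52.NQ (S_THETA)

universe u

/-- for `d` not one modulo five the block has no apex -/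
theorem b5_bp {K : ℝ} (hK : 25 < K) {d : ℕ} (hd : d % 5 ≠ 1) :
    B5 25 K d = BP 25 K (((d : ℝ) - 1) / 5) := by
  apply Set.Subset.antisymm
  · rintro ⟨t, j⟩ hp
    obtain ⟨h1, h2, h3, h4⟩ := b5_pos hK hp
    refine ⟨hp, h3 (lt_of_le_of_ne h1 fun h => ?_)⟩
    have h5 : (5 : ℝ) * j = d - 1 := by linarith
    have h6 : 5 * j = (d : ℤ) - 1 := by exact_mod_cast h5
    omega
  · intro p hp
    exact hp.1

section
variable {q v n : ℕ} {K σ : ℝ}

theorem hz5 (d : ℕ) : ∃ z : ℤ, ((25 : ℕ) : ℝ) * (((d : ℝ) - 1) / 5) = z :=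
  ⟨5 * ((d : ℤ) - 1), by push_cast; ring⟩

theorem eta5 (d : ℕ) : ((d : ℝ) - 1) / 5 = (2 * (d : ℝ) + 3 - 5) / (2 * 5) := by ring

theorem emp5_two (hTu : S_TUBE) (hΘ : S_THETA) (hAs : S_ASM) (h : NumG 25 q v n K 5 σ)
    (hK : K < 26) {k : Type u} [Field k] [CharP k 0] {m d : ℕ} (hd : 1 ≤ d)
    (hT : 2 * (d : ℝ) + 3 < σ * (2 * m + 1))
    (hc : d % 5 = 3 ∨ d % 5 = 4 ∨ (d % 5 = 2 ∧ (d : ℝ) - 1 < σ * m) ∨
      (d % 5 = 0 ∧ (5 + σ) * (d - 1 - σ * m) < -4)) :
    ∃ F : MvPolynomial (Fin (n + 1)) k, F ≠ 0 ∧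
      ∀ (c : k) (a : Fin n → k), MvPolynomial.eval (Fin.cons c a : Fin (n + 1) → k) F ≠ 0 →
        ∀ d' ≤ d, JetDim n m c a d' := by
  have hK25 : 25 < K := by
    have := h.hKM
    push_cast at this
    exact this
  have hs5 := h.ds
  have hdR : (1 : ℝ) ≤ d := by exact_mod_cast hd
  have hApos : 0 ≤ K * (((d : ℝ) - 1) / 5) := mul_nonneg (by linarith) (by linarith)
  have hsum : K * (((d : ℝ) - 1) / 5) + (K * (((d : ℝ) - 1) / 5) - (K + v)) / (q * (K + v) - 1) <
      n * m := by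
    rw [eta5, h.thr, ← not_le]
    intro h5
    have := (thrg h m d).1 h5
    linarith
  have hE : EmpG 0 (fun _ : Unit => n) (fun _ => m) (E5 ((35 - K) / 25) d) := by
    apply e5_of_bk hK25 hK
    rw [b5_bp hK25 (by omega)]
    by_cases hd5 : d % 5 = 0
    · have hy : y4 v K (K * (((d : ℝ) - 1) / 5)) m < ((-2 : ℤ) : ℝ) := by
        have h5 : (5 + σ) * (d - 1 - σ * m) < -4 := by
          rcases hc with hc | hc | hc | hc
          · omega
          · omega
          · omega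
          · exact hc.2
        rw [eta5, h.y_eq]
        push_cast
        linarith
      refine emp_two_g h (hz5 d) (x0 := -2) (by norm_num) ?_ ?_ (fun _ => ?_) (fun _ => hy) hsum
      · rintro ⟨x, j⟩ ⟨h1, h2⟩
        simp only at h1 h2 ⊢
        omega
      · rintro ⟨x, j⟩ ⟨h1, h2⟩ ⟨x', j'⟩ ⟨h3, h4⟩
        simp only at h1 h2 h3 h4
        ext
        · simp only; omega
        · simp only; omega
      · push_cast
        linarith
    · refine emp_two_g h (hz5 d) (x0 := 0) le_rfl ?_ ?_ (fun _ => ?_) (fun hne => ?_) hsum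
      · rintro ⟨x, j⟩ ⟨h1, h2⟩
        simp only at h1 h2 ⊢
        omega
      · rintro ⟨x, j⟩ ⟨h1, h2⟩ ⟨x', j'⟩ ⟨h3, h4⟩
        simp only at h1 h2 h3 h4
        ext
        · simp only; omega
        · simp only; omega
      · push_cast
        exact hApos
      · obtain ⟨⟨x, j⟩, h1, h2⟩ := hne
        simp only at h1 h2
        have h5 : (d : ℝ) - 1 < σ * m := by
          rcases hc with hc | hc | hc | hc
          · omega
          · omega
          · exact hc.2
          · omega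
        rw [eta5, h.y_eq]
        have : 0 < (5 + σ) / 4 * (2 * (σ * m - (d - 1))) := mul_pos (by linarith) (by linarith)
        push_cast
        linarith
  obtain ⟨L, _, _, c0, a0, h0⟩ := key5_coll hTu hΘ hAs (by linarith) (by linarith) hE
  obtain ⟨F, hF, hF'⟩ := coll_transfer (L := k) 0 (r := n) (m := m) (c0 := c0) (a0 := a0)
    (d := d) (fun P hP hP' => h0 P hP hP')
  refine ⟨F, hF, fun c a hc d' hd' => ?_⟩
  exact jet_full ((hF' c a hc).mono hd').rk d' le_rfl

theorem ind5_two (hTu : S_TUBE) (hΘ : S_THETA) (hAs : S_ASM) (h : NumG 25 q v n K 5 σ)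
    (hK : K < 26) {k : Type u} [Field k] [CharP k 0] {m d : ℕ} (hn : 2 ≤ n)
    (hT : σ * (2 * m + 1) ≤ 2 * d + 3) :
    ∃ F : MvPolynomial (Fin (n + 1)) k, F ≠ 0 ∧
      ∀ (c : k) (a : Fin n → k), MvPolynomial.eval (Fin.cons c a : Fin (n + 1) → k) F ≠ 0 →
        ∀ d' ≥ d, JetDim n m c a d' := by
  have hK25 : 25 < K := by
    have := h.hKM
    push_cast at this
    exact this
  obtain ⟨hf, hcard⟩ := bk_card5 h.irr hK25 hK d
  obtain ⟨hle, hE⟩ := ind_two_g h (hz5 d) (m := m) (N := (d + 2).choose 2) hf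
    (fun p hp => Or.inl hp.1) hcard hn (by
      rw [eta5, h.thr]
      exact (thrg h m d).2 hT)
  exact ind5_of_emp hTu hΘ hAs (by linarith) (by linarith) hle (e5_of_bk hK25 hK hE)

end

theorem not_sq27 : ¬ IsSquare (27 : ℕ) := by
  rintro ⟨k, hk⟩
  have : k < 6 := by nlinarith
  interval_cases k <;> omega

theorem not_sq29 : ¬ IsSquare (29 : ℕ) := by
  rintro ⟨k, hk⟩
  have : k < 6 := by nlinarith
  interval_cases k <;> omega

theorem irr_K5 {n : ℕ} (hn : ¬ IsSquare n) : Irrational ((25 + 5 * √(n : ℝ)) / 2) := by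
  have h1 : (25 + 5 * √(n : ℝ)) / 2 = (((5 : ℕ) : ℝ) * √(n : ℝ) + ((25 : ℕ) : ℝ)) / ((2 : ℕ) : ℝ) := by
    push_cast
    ring
  rw [h1]
  exact (((irr_sqrt hn).natCast_mul (by norm_num)).add_natCast 25).div_natCast (by norm_num)

theorem num5_27 : NumG 25 2 1 27 ((25 + 5 * √(27 : ℝ)) / 2) 5 (√(27 : ℝ)) := by
  have hs : √(27 : ℝ) ^ 2 = 27 := Real.sq_sqrt (by norm_num)
  have h0 : 0 ≤ √(27 : ℝ) := Real.sqrt_nonneg _
  have h3 : 5 < √(27 : ℝ) := by nlinarith
  refine ⟨by push_cast; linarith, by linarith, by norm_num, by norm_num, rfl, ?_, ?_, ?_,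
    by push_cast; exact hs, by norm_num, by norm_num, h3, by push_cast; ring, by norm_num⟩
  · push_cast
    linear_combination (25 / 2) * hs
  · push_cast
    linear_combination (25 / 2) * hs
  · have := irr_K5 not_sq27
    push_cast at this
    exact this

theorem num5_29 : NumG 25 1 2 29 ((25 + 5 * √(29 : ℝ)) / 2) 5 (√(29 : ℝ)) := by
  have hs : √(29 : ℝ) ^ 2 = 29 := Real.sq_sqrt (by norm_num)
  have h0 : 0 ≤ √(29 : ℝ) := Real.sqrt_nonneg _
  have h3 : 5 < √(29 : ℝ) := by nlinarith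
  refine ⟨by push_cast; linarith, by linarith, by norm_num, by norm_num, rfl, ?_, ?_, ?_,
    by push_cast; exact hs, by norm_num, by norm_num, h3, by push_cast; ring, by norm_num⟩
  · push_cast
    linear_combination (25 / 4) * hs
  · push_cast
    linear_combination (25 / 4) * hs
  · have := irr_K5 not_sq29
    push_cast at this
    exact this

theorem K27 : (25 + 5 * √(27 : ℝ)) / 2 < 26 := by
  have h1 : √(27 : ℝ) < 27 / 5 := by
    rw [Real.sqrt_lt' (by norm_num)]
    norm_num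
  linarith

theorem K29 : (25 + 5 * √(29 : ℝ)) / 2 < 26 := by
  have h1 : √(29 : ℝ) < 27 / 5 := by
    rw [Real.sqrt_lt' (by norm_num)]
    norm_num
  linarith

end Pool.Agent.L7h13.QU
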